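import Mathlib

set_option autoImplicit false

namespace Pool.Agent.Results.MP_2248a2_co.Disproof

open SimpleGraph

/-- `colouringDiscrepancy c` is `φ_c(G) = max_H (|c(H)| - χ(H))`, the maximum over all induced
subgraphs `H = G[S]` of the number of colours that `c` uses on `H` minus the chromatic number
of `H` (this difference is never negative). -/
noncomputable def colouringDiscrepancy {V : Type} [Fintype V] {G : SimpleGraph V}
    (c : G.Coloring ℕ) : ℕ :=
  sSup (Set.range fun S : Set V =>
    Set.ncard ((fun v => c v) '' S) - (G.induce S).chromaticNumber.toNat)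

/-- The chromatic discrepancy `φ(G) = min_c φ_c(G)`, the minimum over all proper colourings
`c` of `G` (with any number of colours). -/
noncomputable def chromaticDiscrepancy {V : Type} [Fintype V] (G : SimpleGraph V) : ℕ :=
  sInf (Set.range fun c : G.Coloring ℕ => colouringDiscrepancy c)

/-- The shift graph on pairs. -/
def shiftGraph (n : ℕ) : SimpleGraph {p : Fin n × Fin n // p.1 < p.2} where
  Adj p q := p.1.2 = q.1.1 ∨ q.1.2 = p.1.1
  symm := ⟨fun _ _ h => Or.symm h⟩
  loopless := ⟨fun p h => by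
    have := p.2
    rcases h with h | h <;> omega⟩

theorem shiftGraph_triangle_free (n : ℕ) (p q r : {p : Fin n × Fin n // p.1 < p.2})
    (h1 : (shiftGraph n).Adj p q) (h2 : (shiftGraph n).Adj q r) (h3 : (shiftGraph n).Adj p r) :
    False := by
  have hp : (p.1.1 : ℕ) < p.1.2 := p.2
  have hq : (q.1.1 : ℕ) < q.1.2 := q.2
  have hr : (r.1.1 : ℕ) < r.1.2 := r.2
  have g1 : (p.1.2 : ℕ) = q.1.1 ∨ (q.1.2 : ℕ) = p.1.1 := h1.imp (congrArg _) (congrArg _)
  have g2 : (q.1.2 : ℕ) = r.1.1 ∨ (r.1.2 : ℕ) = q.1.1 := h2.imp (congrArg _) (congrArg _)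
  have g3 : (p.1.2 : ℕ) = r.1.1 ∨ (r.1.2 : ℕ) = p.1.1 := h3.imp (congrArg _) (congrArg _)
  omega

theorem shiftGraph_not_colouring (n : ℕ) {α : Type} [Fintype α]
    (hn : 2 ^ Fintype.card α < n) (f : {p : Fin n × Fin n // p.1 < p.2} → α)
    (hf : ∀ p q, (shiftGraph n).Adj p q → f p ≠ f q) : False := by
  classical
  let A : Fin n → Finset α := fun a =>
    Finset.univ.filter fun x => ∃ (b : Fin n) (h : a < b), f ⟨(a, b), h⟩ = x
  have hA : Function.Injective A := by
    intro a b hab
    by_contra hne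
    have key : ∀ a b : Fin n, a < b → A a ≠ A b := by
      intro a b hlt heq
      have h1 : f ⟨(a, b), hlt⟩ ∈ A a := by
        simp only [A, Finset.mem_filter, Finset.mem_univ, true_and]
        exact ⟨b, hlt, rfl⟩
      rw [heq] at h1
      simp only [A, Finset.mem_filter, Finset.mem_univ, true_and] at h1
      obtain ⟨c, hbc, hc⟩ := h1
      have hadj : (shiftGraph n).Adj ⟨(b, c), hbc⟩ ⟨(a, b), hlt⟩ := Or.inr rfl
      exact hf ⟨(b, c), hbc⟩ ⟨(a, b), hlt⟩ hadj hc
    rcases lt_or_gt_of_ne hne with h | h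
    · exact key a b h hab
    · exact key b a h hab.symm
  have h2 := Fintype.card_le_of_injective A hA
  rw [Fintype.card_fin, Fintype.card_finset] at h2
  omega

/-- The graph of the construction: `F`-edges are complete between the fibres, and `Y` is put on
the pairs of different fibres that are not adjacent in `F`. -/
def mix {I P : Type} (F : SimpleGraph I) (Y : SimpleGraph P) : SimpleGraph (I × P) where
  Adj x y := F.Adj x.1 y.1 ∨ (x.1 ≠ y.1 ∧ ¬ F.Adj x.1 y.1 ∧ Y.Adj x.2 y.2)
  symm := ⟨fun x y h => by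
    rcases h with h | ⟨h1, h2, h3⟩
    · exact Or.inl h.symm
    · exact Or.inr ⟨h1.symm, fun h => h2 h.symm, h3.symm⟩⟩
  loopless := ⟨fun x h => by
    rcases h with h | ⟨h1, _, _⟩
    · exact F.irrefl h
    · exact h1 rfl⟩

section mix

variable {I P : Type} (F : SimpleGraph I) (Y : SimpleGraph P)

theorem mix_adj {x y : I × P} : (mix F Y).Adj x y ↔
    F.Adj x.1 y.1 ∨ (x.1 ≠ y.1 ∧ ¬ F.Adj x.1 y.1 ∧ Y.Adj x.2 y.2) := Iff.rfl

theorem mix_fst_ne {x y : I × P} (h : (mix F Y).Adj x y) : x.1 ≠ y.1 := by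
  rw [mix_adj] at h
  rcases h with h | ⟨h1, _, _⟩
  · exact F.ne_of_adj h
  · exact h1

/-- A clique of `mix F Y` has at most five vertices when `F` and `Y` are triangle-free. -/
theorem mix_clique_card (hF : ∀ a b c, F.Adj a b → F.Adj b c → F.Adj a c → False)
    (hY : ∀ a b c, Y.Adj a b → Y.Adj b c → Y.Adj a c → False)
    (Q : Finset (I × P)) (hQ : (mix F Y).IsClique (Q : Set (I × P))) : Q.card ≤ 5 := by
  classical
  by_contra hcard
  push Not at hcard
  have hne : Q.Nonempty := Finset.card_pos.mp (by omega)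
  obtain ⟨x, hx⟩ := hne
  -- neighbours and non-neighbours in `F`
  let A := (Q.erase x).filter fun y => F.Adj x.1 y.1
  let B := (Q.erase x).filter fun y => ¬ F.Adj x.1 y.1
  have hAB : A.card + B.card = (Q.erase x).card :=
    Finset.card_filter_add_card_filter_not _
  have hQe : (Q.erase x).card = Q.card - 1 := Finset.card_erase_of_mem hx
  have hadj : ∀ y ∈ Q, ∀ z ∈ Q, y ≠ z →
      F.Adj y.1 z.1 ∨ (y.1 ≠ z.1 ∧ ¬ F.Adj y.1 z.1 ∧ Y.Adj y.2 z.2) := fun y hy z hz hyz =>
    hQ (by exact_mod_cast hy) (by exact_mod_cast hz) hyz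
  have h3 : 2 < A.card ∨ 2 < B.card := by omega
  rcases h3 with h3 | h3
  · obtain ⟨a, ha, b, hb, c, hc, hab, hac, hbc⟩ := Finset.two_lt_card.mp h3
    simp only [A, Finset.mem_filter, Finset.mem_erase] at ha hb hc
    have e1 := hadj a ha.1.2 b hb.1.2 hab
    have e2 := hadj b hb.1.2 c hc.1.2 hbc
    have e3 := hadj a ha.1.2 c hc.1.2 hac
    rcases e1 with e1 | ⟨_, _, e1⟩
    · exact hF _ _ _ ha.2 e1 hb.2
    rcases e2 with e2 | ⟨_, _, e2⟩
    · exact hF _ _ _ hb.2 e2 hc.2
    rcases e3 with e3 | ⟨_, _, e3⟩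
    · exact hF _ _ _ ha.2 e3 hc.2
    exact hY _ _ _ e1 e2 e3
  · obtain ⟨a, ha, b, hb, c, hc, hab, hac, hbc⟩ := Finset.two_lt_card.mp h3
    simp only [B, Finset.mem_filter, Finset.mem_erase] at ha hb hc
    have e1 := hadj a ha.1.2 b hb.1.2 hab
    have e2 := hadj b hb.1.2 c hc.1.2 hbc
    have e3 := hadj a ha.1.2 c hc.1.2 hac
    have d1 := hadj x hx a ha.1.2 (Ne.symm ha.1.1)
    have d2 := hadj x hx b hb.1.2 (Ne.symm hb.1.1)
    have d3 := hadj x hx c hc.1.2 (Ne.symm hc.1.1)
    rcases d1 with d1 | ⟨_, _, d1⟩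
    · exact ha.2 d1
    rcases d2 with d2 | ⟨_, _, d2⟩
    · exact hb.2 d2
    rcases d3 with d3 | ⟨_, _, d3⟩
    · exact hc.2 d3
    rcases e1 with e1 | ⟨_, _, e1⟩
    swap
    · exact hY _ _ _ d1 e1 d2
    rcases e2 with e2 | ⟨_, _, e2⟩
    swap
    · exact hY _ _ _ d2 e2 d3
    rcases e3 with e3 | ⟨_, _, e3⟩
    swap
    · exact hY _ _ _ d1 e3 d3
    exact hF _ _ _ e1 e2 e3

/-- `mix F Y` is not properly colourable by fewer than `|I|` colours as soon as `Y` has no
proper colouring by the functions from `I` to the colours. -/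
theorem mix_not_colouring [Fintype I] {κ : Type} [Fintype κ]
    (hκ : Fintype.card κ < Fintype.card I)
    (hY : ∀ g : P → (I → κ), ∃ p q, Y.Adj p q ∧ g p = g q)
    (f : (mix F Y).Coloring κ) : False := by
  classical
  obtain ⟨p, q, hpq, hg⟩ := hY fun p i => f (i, p)
  obtain ⟨i, j, hij, hfij⟩ := Fintype.exists_ne_map_eq_of_card_lt (fun i => f (i, p)) hκ
  by_cases hF : F.Adj i j
  · have hadj : (mix F Y).Adj (i, p) (j, p) := Or.inl hF
    exact f.valid hadj hfij
  · have h1 : f (j, p) = f (j, q) := congrFun hg j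
    have hadj : (mix F Y).Adj (i, p) (j, q) := Or.inr ⟨hij, hF, hpq⟩
    exact f.valid hadj (hfij.trans h1)

/-- The projection colouring. -/
def projColouring (e : I → ℕ) (he : Function.Injective e) : (mix F Y).Coloring ℕ :=
  Coloring.mk (fun x => e x.1) fun {_ _} h hxy => mix_fst_ne F Y h (he hxy)

theorem mix_induce_bound [Fintype I] (B : ℕ) (hB : ¬ F.Colorable B) (S : Set (I × P))
    (m : ℕ) (hm : ((mix F Y).induce S).Colorable m) :
    Set.ncard (Prod.fst '' S) + B < m + Fintype.card I := by
  classical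
  by_contra hcon
  push Not at hcon
  apply hB
  obtain ⟨f⟩ := hm
  have hrep : ∀ i : I, i ∈ Prod.fst '' S → ∃ p, (i, p) ∈ S := by
    rintro i ⟨⟨i', p⟩, hx, rfl⟩
    exact ⟨p, hx⟩
  choose r hr using hrep
  let J : Set I := Prod.fst '' S
  let g : I → Fin m ⊕ {i : I // i ∉ J} := fun i =>
    if h : i ∈ J then Sum.inl (f ⟨(i, r i h), hr i h⟩) else Sum.inr ⟨i, h⟩
  have hg : ∀ i j, F.Adj i j → g i ≠ g j := by
    intro i j hij heq
    by_cases hi : i ∈ J
    · by_cases hj : j ∈ J
      · simp only [g, dif_pos hi, dif_pos hj, Sum.inl.injEq] at heq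
        have hadj : ((mix F Y).induce S).Adj ⟨(i, r i hi), hr i hi⟩ ⟨(j, r j hj), hr j hj⟩ := by
          show (mix F Y).Adj (i, r i hi) (j, r j hj)
          exact Or.inl hij
        exact f.valid hadj heq
      · simp only [g, dif_pos hi, dif_neg hj] at heq
        exact absurd heq (by simp)
    · by_cases hj : j ∈ J
      · simp only [g, dif_neg hi, dif_pos hj] at heq
        exact absurd heq (by simp)
      · simp only [g, dif_neg hi, dif_neg hj, Sum.inr.injEq, Subtype.mk.injEq] at heq
        exact F.ne_of_adj hij heq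
  have hcol : F.Colorable (Fintype.card (Fin m ⊕ {i : I // i ∉ J})) :=
    Coloring.colorable (Coloring.mk g fun {i j} h => hg i j h)
  refine hcol.mono ?_
  rw [Fintype.card_sum, Fintype.card_fin, Fintype.card_subtype_compl]
  have : Fintype.card {i : I // i ∈ J} = Set.ncard J := by
    rw [Set.ncard_eq_toFinset_card', Set.toFinset_card]
  rw [this]
  have hle : Set.ncard J ≤ Fintype.card I := by
    rw [← Nat.card_eq_fintype_card]
    exact Set.ncard_le_card J
  have hJ : Set.ncard J = Set.ncard (Prod.fst '' S) := rfl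
  omega

end mix

theorem result : ∀ d : ℕ, ∃ (V : Type) (_ : Fintype V) (G : SimpleGraph V),
    (chromaticDiscrepancy G : ℤ) + d < (G.chromaticNumber.toNat : ℤ) - (G.cliqueNum : ℤ) := by
  classical
  intro d
  -- the graph `F`
  let nF := 2 ^ (d + 5) + 1
  let I := {p : Fin nF × Fin nF // p.1 < p.2}
  let F : SimpleGraph I := shiftGraph nF
  let k := Fintype.card I
  have hFcol : ¬ F.Colorable (d + 5) := by
    rintro ⟨f⟩
    exact shiftGraph_not_colouring nF (α := Fin (d + 5)) (by simp [nF]) (fun x => f x)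
      (fun p q h => f.valid h)
  have hk : 0 < k := by
    rcases Nat.eq_zero_or_pos k with h | h
    · exfalso
      apply hFcol
      have : IsEmpty I := Fintype.card_eq_zero_iff.mp h
      exact Colorable.of_isEmpty _
    · exact h
  let nY := 2 ^ Fintype.card (I → Fin (k - 1)) + 1
  let P := {p : Fin nY × Fin nY // p.1 < p.2}
  let Y : SimpleGraph P := shiftGraph nY
  let G := mix F Y
  refine ⟨I × P, inferInstance, G, ?_⟩
  -- the clique number
  have hω : G.cliqueNum ≤ 5 := by
    obtain ⟨s, hs⟩ := G.exists_isNClique_cliqueNum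
    have := mix_clique_card F Y (shiftGraph_triangle_free nF) (shiftGraph_triangle_free nY) s
      hs.isClique
    rw [hs.card_eq] at this
    exact this
  -- the chromatic number
  have hnot : ¬ G.Colorable (k - 1) := by
    rintro ⟨f⟩
    refine mix_not_colouring F Y (κ := Fin (k - 1)) (by simp; omega) ?_ f
    intro g
    by_contra hcon
    push Not at hcon
    exact shiftGraph_not_colouring nY (α := I → Fin (k - 1)) (by simp [nY]) g hcon
  have hcolG : G.Colorable k := by
    have : G.Coloring I := Coloring.mk (fun x => x.1) fun {_ _} h => mix_fst_ne F Y h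
    exact this.colorable
  have hχ : G.chromaticNumber = k := by
    apply le_antisymm hcolG.chromaticNumber_le
    rw [le_chromaticNumber_iff_colorable]
    intro m hm
    by_contra hlt
    push Not at hlt
    have hlt' : m < k := by exact_mod_cast hlt
    exact hnot (hm.mono (by omega))
  -- the discrepancy
  let e : I → ℕ := fun i => (Fintype.equivFin I i : ℕ)
  have he : Function.Injective e := fun i j h =>
    (Fintype.equivFin I).injective (Fin.ext h)
  let c := projColouring F Y e he
  have hcd : colouringDiscrepancy c ≤ k - (d + 5) - 1 := by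
    apply csSup_le (Set.range_nonempty _)
    rintro _ ⟨S, rfl⟩
    have hfin : (G.induce S).Colorable (G.induce S).chromaticNumber.toNat :=
      colorable_chromaticNumber_of_fintype _
    have h1 : Set.ncard (Prod.fst '' S) + (d + 5) <
        (G.induce S).chromaticNumber.toNat + k := mix_induce_bound F Y (d + 5) hFcol S _ hfin
    have h2 : Set.ncard ((fun v => c v) '' S) = Set.ncard (Prod.fst '' S) := by
      have : (fun v => c v) '' S = e '' (Prod.fst '' S) := by
        rw [Set.image_image]
        rfl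
      rw [this, Set.ncard_image_of_injective _ he]
    have h3 : Set.ncard (Prod.fst '' S) - (G.induce S).chromaticNumber.toNat ≤
        k - (d + 5) - 1 := by omega
    rw [← h2] at h3
    exact h3
  have hφ : chromaticDiscrepancy G ≤ k - (d + 5) - 1 :=
    le_trans (csInf_le (OrderBot.bddBelow _) ⟨c, rfl⟩) hcd
  have hbig : d + 5 < k := by
    by_contra hcon
    push Not at hcon
    exact hFcol ((colorable_of_fintype F).mono hcon)
  rw [hχ]
  simp only [ENat.toNat_natCast]
  have : chromaticDiscrepancy G + (d + 5) + 1 ≤ k := by omega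
  have h4 : (chromaticDiscrepancy G : ℤ) + (d + 5) + 1 ≤ k := by exact_mod_cast this
  have h5 : (G.cliqueNum : ℤ) ≤ 5 := by exact_mod_cast hω
  linarith

end Pool.Agent.Results.MP_2248a2_co.Disproof
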